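import Pool.Agent.Lib.MP_16285c_agX.Dgv.Spec

/-!
# Totally invariant divisors of a hypersurface: the interface with the assembly
-/

set_option autoImplicit false

namespace Pool.Agent.Lib.MP_16285c_agX.DgvCanXM

open Pool.Agent.Lib.MP_16285c_agN

variable {K E : Type} [Field K] [Field E] [Algebra K E] {n : ℕ}

theorem fsE_up (G : Pl n K) :
    MvPolynomial.finSuccEquiv K n (up K n G) = Polynomial.C G := by
  induction G using MvPolynomial.induction_on with
  | C a =>
    rw [up, MvPolynomial.rename_C, MvPolynomial.finSuccEquiv_apply]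
    simp
  | add p q hp hq => rw [map_add, map_add, hp, hq, map_add]
  | mul_X p i hp =>
    rw [map_mul, map_mul, hp, map_mul]
    congr 1
    rw [up, MvPolynomial.rename_X, MvPolynomial.finSuccEquiv_X_succ]

/-- No multiple of `P` lies in `K[x₁, …, x_n]`. -/
theorem up_mem {P : Pl (n + 1) K} (hP : MonZ P) (hp : (Ideal.span {P}).IsPrime) {G : Pl n K}
    (hG : up K n G ∈ Ideal.span {P}) : G = 0 := by
  by_contra h0
  rw [Ideal.mem_span_singleton] at hG
  have h1 : MvPolynomial.finSuccEquiv K n P ∣ Polynomial.C G := by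
    rw [← fsE_up]
    exact map_dvd (MvPolynomial.finSuccEquiv K n) hG
  have h2 : (MvPolynomial.finSuccEquiv K n P).natDegree = 0 := by
    have := Polynomial.natDegree_le_of_dvd h1 (by simpa using h0)
    rw [Polynomial.natDegree_C] at this
    omega
  have h3 : MvPolynomial.finSuccEquiv K n P = 1 :=
    (Polynomial.Monic.natDegree_eq_zero hP).1 h2
  have h4 : P = 1 := by
    apply (MvPolynomial.finSuccEquiv K n).injective
    rw [h3, map_one]
  apply hp.ne_top
  rw [h4, Ideal.span_singleton_one]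

theorem fa_up (fa : Pl (n + 1) K →ₐ[K] E) (G : Pl n K) :
    MvPolynomial.aeval (fun i : Fin n => fa (MvPolynomial.X i.succ)) G = fa (up K n G) := by
  have h : (MvPolynomial.aeval fun i : Fin n => fa (MvPolynomial.X i.succ)) = fa.comp (up K n) := by
    apply MvPolynomial.algHom_ext
    intro i
    rw [MvPolynomial.aeval_X, AlgHom.comp_apply, up, MvPolynomial.rename_X]
  rw [h]
  rfl

theorem fa_fsE (fa : Pl (n + 1) K →ₐ[K] E) (G : Pl (n + 1) K) :
    Polynomial.eval₂ ((fa.comp (up K n) : Pl n K →ₐ[K] E) : Pl n K →+* E) (fa (MvPolynomial.X 0))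
      (MvPolynomial.finSuccEquiv K n G) = fa G := by
  induction G using MvPolynomial.induction_on with
  | C a =>
    rw [MvPolynomial.finSuccEquiv_apply]
    simp only [MvPolynomial.eval₂Hom_C, RingHom.coe_comp, Function.comp_apply,
      Polynomial.eval₂_C]
    change (fa.comp (up K n)) (MvPolynomial.C a) = fa (MvPolynomial.C a)
    rw [AlgHom.comp_apply, up, MvPolynomial.rename_C]
  | add p q hp hq => rw [map_add, Polynomial.eval₂_add, hp, hq, map_add]
  | mul_X p i hp =>
    rw [map_mul, Polynomial.eval₂_mul, hp, map_mul]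
    congr 1
    refine Fin.cases ?_ (fun j => ?_) i
    · rw [MvPolynomial.finSuccEquiv_X_zero, Polynomial.eval₂_X]
    · rw [MvPolynomial.finSuccEquiv_X_succ, Polynomial.eval₂_C]
      change (fa.comp (up K n)) (MvPolynomial.X j) = _
      rw [AlgHom.comp_apply, up, MvPolynomial.rename_X]

/-- The function field of the hypersurface is finite over the field of affine space. -/
theorem finite (fa : Pl (n + 1) K →ₐ[K] E) (P : Pl (n + 1) K) (hP : MonZ P) (hP0 : fa P = 0)
    (hfrac : ∀ u : E, ∃ N D : Pl (n + 1) K, fa D ≠ 0 ∧ u * fa D = fa N) :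
    Module.Finite (IntermediateField.adjoin K
      (Set.range fun i : Fin n => fa (MvPolynomial.X i.succ))) E := by
  set x : Fin n → E := fun i => fa (MvPolynomial.X i.succ) with hx
  set F := IntermediateField.adjoin K (Set.range x) with hF
  have hmem : ∀ G : Pl n K, fa (up K n G) ∈ F := by
    intro G
    rw [← fa_up]
    refine IntermediateField.algebra_adjoin_le_adjoin K _ ?_
    rw [← MvPolynomial.aeval_range]
    exact ⟨G, rfl⟩
  let φ : Pl n K →+* F :=
    ((fa.comp (up K n) : Pl n K →ₐ[K] E) : Pl n K →+* E).codRestrict F fun G => hmem G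
  have hφ : (algebraMap F E).comp φ = ((fa.comp (up K n) : Pl n K →ₐ[K] E) : Pl n K →+* E) := by
    ext <;> rfl
  have hint : IsIntegral F (fa (MvPolynomial.X 0)) := by
    refine ⟨(MvPolynomial.finSuccEquiv K n P).map φ, hP.map φ, ?_⟩
    rw [Polynomial.eval₂_map, hφ, fa_fsE, hP0]
  have htop : IntermediateField.adjoin F {fa (MvPolynomial.X 0)} = ⊤ := by
    rw [eq_top_iff]
    rintro u -
    have h1 : ∀ G : Pl (n + 1) K, fa G ∈ IntermediateField.adjoin F {fa (MvPolynomial.X 0)} := by
      intro G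
      have h2 : fa G = Polynomial.aeval (fa (MvPolynomial.X 0))
          ((MvPolynomial.finSuccEquiv K n G).map φ) := by
        rw [Polynomial.aeval_def, Polynomial.eval₂_map, hφ, fa_fsE]
      rw [h2]
      exact Polynomial.aeval_mem_adjoin_singleton F _ |>
        (IntermediateField.algebra_adjoin_le_adjoin F _ ·)
    obtain ⟨N, D, hD, h3⟩ := hfrac u
    have h4 : u = fa N / fa D := by
      rw [← h3, mul_div_cancel_right₀ _ hD]
    rw [h4]
    exact div_mem (h1 N) (h1 D)
  have h5 : FiniteDimensional F (IntermediateField.adjoin F {fa (MvPolynomial.X 0)}) :=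
    IntermediateField.adjoin.finiteDimensional hint
  rw [htop] at h5
  exact Module.Finite.equiv (IntermediateField.topEquiv (F := F) (E := E)).toLinearEquiv

end Pool.Agent.Lib.MP_16285c_agX.DgvCanXM

namespace Pool.Agent.Lib.MP_16285c_agX

open Pool.Agent.Lib.MP_16285c_agN DgvCanXM
open Pool.Agent.Lib.MP_16285c_agS (xi InTI)

/-- Totally invariant divisors of a hypersurface are components of one divisor. -/
theorem tCanX (hCan : StmtCan) (hDgv : StmtDgv) (hG1 : StmtG1) : StmtCanX := by
  intro n hn K _ _ P hPp hP E _ _ _ _ _ σ ρ hσ hinv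
  obtain ⟨d, rfl⟩ : ∃ d, n = d + 2 := ⟨n - 2, by omega⟩
  let f : Pl (d + 2 + 1) K →+* E := (algebraMap (CR (Ideal.span {P})) E).comp (Ideal.Quotient.mk _)
  let fa : Pl (d + 2 + 1) K →ₐ[K] E :=
    { f with
      commutes' := by
        intro c
        rw [IsScalarTower.algebraMap_apply K (CR (Ideal.span {P})) E]
        rfl }
  have hfa : ∀ G, fa G = xi (Ideal.span {P}) E G := fun G => rfl
  have hf0 : ∀ G, fa G = 0 ↔ G ∈ Ideal.span {P} := by
    intro G
    change algebraMap (CR (Ideal.span {P})) E (Ideal.Quotient.mk _ G) = 0 ↔ _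
    rw [FaithfulSMul.algebraMap_eq_zero_iff, Ideal.Quotient.eq_zero_iff_mem]
  have hfrac : ∀ u : E, ∃ N D : Pl (d + 2 + 1) K, fa D ≠ 0 ∧ u * fa D = fa N := by
    intro u
    obtain ⟨n1, d1, hd, hu⟩ := IsFractionRing.div_surjective (A := CR (Ideal.span {P})) u
    obtain ⟨N, rfl⟩ := Ideal.Quotient.mk_surjective n1
    obtain ⟨D, rfl⟩ := Ideal.Quotient.mk_surjective d1
    have h1 : fa D ≠ 0 := by
      change algebraMap (CR (Ideal.span {P})) E (Ideal.Quotient.mk _ D) ≠ 0
      rw [Ne, FaithfulSMul.algebraMap_eq_zero_iff]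
      exact nonZeroDivisors.ne_zero hd
    refine ⟨N, D, h1, ?_⟩
    rw [← hu]
    exact div_mul_cancel₀ _ h1
  set x : Fin (d + 2) → E := fun i => fa (MvPolynomial.X i.succ) with hx
  have hind : AlgebraicIndependent K x := by
    rw [algebraicIndependent_iff]
    intro G hG
    rw [fa_up, hf0] at hG
    exact up_mem hP hPp hG
  have hfin1 := finite fa P hP ((hf0 P).2 (Ideal.mem_span_singleton_self P)) hfrac
  have hfin2 : Module.Finite ρ.fieldRange E := hG1.1 K (d + 2 + 1) (Ideal.span {P}) E ρ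
  obtain ⟨Γ, hΓ0, hΓ⟩ := hCan d K E ρ x hind hfin1 hfin2 hinv
  refine ⟨Γ, hΓ0, ?_⟩
  intro 𝔭 _ hP𝔭 hdP hrk L _ _ _ _ _ ρb hσb hT
  obtain ⟨⟨R, hR0, hR⟩, O, hTI, hO, hv⟩ :=
    hDgv (d + 2) K P 𝔭 hP hP𝔭 hdP hrk E L σ ρ ρb hσ hσb hfin2 hT
  have h1 := hΓ O hTI (fun i => hO _) ⟨R, hR0, fun G => ?_⟩
  · rw [fa_up, hfa, hv] at h1
    exact h1
  · rw [fa_up, hfa, hv]
    exact hR G

end Pool.Agent.Lib.MP_16285c_agX

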