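import Pool.Agent.Lib.MP_16285c_agX.Dgv.Spec

/-!
# The contraction of a divisor on the hypersurface to affine space
-/

set_option autoImplicit false

namespace Pool.Agent.Lib.MP_16285c_agX

open Pool.Agent.Lib.MP_16285c_agN

namespace DgvCtrM

theorem trdeg_eq {K A B : Type} [Field K] [CommRing A] [IsDomain A] [CommRing B] [IsDomain B]
    [Algebra K A] [Algebra K B] (φ : A →ₐ[K] B) (hinj : Function.Injective φ)
    (hint : ∀ b : B, (φ : A →+* B).IsIntegralElem b) : Algebra.trdeg K A = Algebra.trdeg K B := by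
  letI : Algebra A B := (φ : A →+* B).toAlgebra
  haveI : IsScalarTower K A B := IsScalarTower.of_algebraMap_eq' φ.comp_algebraMap.symm
  haveI : FaithfulSMul A B := (faithfulSMul_iff_algebraMap_injective A B).mpr hinj
  haveI : FaithfulSMul K A :=
    (faithfulSMul_iff_algebraMap_injective K A).mpr (algebraMap K A).injective
  haveI : Algebra.IsIntegral A B := ⟨fun b => hint b⟩
  have h := _root_.trdeg_add_eq K A (A := B)
  have h0 : Algebra.trdeg A B = 0 := _root_.trdeg_eq_zero
  rw [h0, add_zero] at h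
  exact h

/-- The inverse of `finSuccEquiv`. -/
theorem back (K : Type) [Field K] (n : ℕ) (P : Pl (n + 1) K) :
    Polynomial.eval₂ (up K n : Pl n K →+* Pl (n + 1) K) (MvPolynomial.X 0)
      (MvPolynomial.finSuccEquiv K n P) = P := by
  induction P using MvPolynomial.induction_on with
  | C a =>
    rw [MvPolynomial.finSuccEquiv_apply, MvPolynomial.eval₂Hom_C, RingHom.comp_apply,
      Polynomial.eval₂_C]
    exact MvPolynomial.rename_C _ a
  | add p q hp hq => rw [map_add, Polynomial.eval₂_add, hp, hq]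
  | mul_X p i hp =>
    rw [map_mul, Polynomial.eval₂_mul, hp]
    congr 1
    refine Fin.cases ?_ (fun j => ?_) i
    · rw [MvPolynomial.finSuccEquiv_X_zero, Polynomial.eval₂_X]
    · rw [MvPolynomial.finSuccEquiv_X_succ, Polynomial.eval₂_C]
      exact MvPolynomial.rename_X _ j

end DgvCtrM

open DgvCtrM in
theorem tCtr : StmtRk1 → StmtRk2 → StmtRk3 → StmtCtr := by
  intro _ _ hRk3 n K _ P 𝔭 _ hP hPp hrk
  have hp0 : (𝔭.comap (up K n)).IsPrime := Ideal.comap_isPrime (up K n) 𝔭
  let φ : CR (𝔭.comap (up K n)) →ₐ[K] CR 𝔭 := Ideal.quotientMapₐ 𝔭 (up K n) le_rfl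
  have hφ : ∀ G : Pl n K, φ (cl (𝔭.comap (up K n)) G) = cl 𝔭 (up K n G) := fun G => rfl
  have hinj : Function.Injective φ := Ideal.quotientMap_injective
  have hint : ∀ b : CR 𝔭, (φ : CR (𝔭.comap (up K n)) →+* CR 𝔭).IsIntegralElem b := by
    intro b
    obtain ⟨G, rfl⟩ := Ideal.Quotient.mk_surjective b
    induction G using MvPolynomial.induction_on with
    | C a =>
      have h := (φ : CR (𝔭.comap (up K n)) →+* CR 𝔭).isIntegralElem_map
        (x := cl (𝔭.comap (up K n)) (MvPolynomial.C a))
      have h1 : (φ : CR (𝔭.comap (up K n)) →+* CR 𝔭)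
          (cl (𝔭.comap (up K n)) (MvPolynomial.C a)) = cl 𝔭 (MvPolynomial.C a) := by
        show φ (cl (𝔭.comap (up K n)) (MvPolynomial.C a)) = _
        rw [hφ]
        exact congrArg _ (MvPolynomial.rename_C _ a)
      rw [h1] at h
      exact h
    | add p q hp hq =>
      rw [map_add]
      exact hp.add _ hq
    | mul_X p i hp =>
      rw [map_mul]
      refine hp.mul _ ?_
      refine Fin.cases ?_ (fun j => ?_) i
      · refine ⟨(MvPolynomial.finSuccEquiv K n P).map
          (Ideal.Quotient.mk (𝔭.comap (up K n))), hP.map _, ?_⟩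
        rw [Polynomial.eval₂_map]
        have h1 : ((φ : CR (𝔭.comap (up K n)) →+* CR 𝔭).comp
            (Ideal.Quotient.mk (𝔭.comap (up K n)))) =
            (Ideal.Quotient.mk 𝔭).comp (up K n : Pl n K →+* Pl (n + 1) K) := by
          refine RingHom.ext fun G => ?_
          exact hφ G
        rw [h1, ← Polynomial.hom_eval₂, back]
        exact Ideal.Quotient.eq_zero_iff_mem.mpr hPp
      · have h := (φ : CR (𝔭.comap (up K n)) →+* CR 𝔭).isIntegralElem_map
          (x := cl (𝔭.comap (up K n)) (MvPolynomial.X j))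
        have h1 : (φ : CR (𝔭.comap (up K n)) →+* CR 𝔭)
            (cl (𝔭.comap (up K n)) (MvPolynomial.X j)) = cl 𝔭 (MvPolynomial.X j.succ) := by
          show φ (cl (𝔭.comap (up K n)) (MvPolynomial.X j)) = _
          rw [hφ]
          exact congrArg _ (MvPolynomial.rename_X _ j)
        rw [h1] at h
        exact h
  have hrk0 : rk (𝔭.comap (up K n)) = rk 𝔭 := congrArg Cardinal.toNat (trdeg_eq φ hinj hint)
  obtain ⟨R, hR, hR'⟩ := hRk3.2.1 K n (𝔭.comap (up K n)) (by rw [hrk0]; exact hrk)
  refine ⟨R, hR, fun G => ?_⟩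
  rw [← Ideal.mem_span_singleton, ← hR']
  rfl

end Pool.Agent.Lib.MP_16285c_agX
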