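import Pool.Agent.Lib.MP_16285c_agX.Dgv.Spec
import Pool.Agent.Lib.MP_16285c_agS.Dgv.Dgv

/-!
# A divisor of full residue degree is a totally invariant discrete valuation ring, every dimension
-/

set_option autoImplicit false

namespace Pool.Agent.Lib.MP_16285c_agX.DgvDgvM

open Pool.Agent.Lib.MP_16285c_agN

section poly

variable {K : Type} [Field K] {n : ℕ}

theorem fsE_up (G : Pl n K) : MvPolynomial.finSuccEquiv K n (up K n G) = Polynomial.C G := by
  induction G using MvPolynomial.induction_on with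
  | C a =>
    rw [up, MvPolynomial.rename_C, MvPolynomial.finSuccEquiv_apply]
    simp
  | add p q hp hq => rw [map_add, map_add, hp, hq, map_add]
  | mul_X p i hp =>
    rw [map_mul, map_mul, hp, map_mul]
    congr 1
    rw [up, MvPolynomial.rename_X, MvPolynomial.finSuccEquiv_X_succ]

/-- No multiple of `P` lies in `K[x₁, …, x_n]`. -/
theorem up_mem {P : Pl (n + 1) K} (hP : MonZ P) (hp : (Ideal.span {P}).IsPrime) {G : Pl n K}
    (hG : up K n G ∈ Ideal.span {P}) : G = 0 := by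
  by_contra h0
  rw [Ideal.mem_span_singleton] at hG
  have h1 : MvPolynomial.finSuccEquiv K n P ∣ Polynomial.C G := by
    rw [← fsE_up]
    exact map_dvd (MvPolynomial.finSuccEquiv K n) hG
  have h2 : (MvPolynomial.finSuccEquiv K n P).natDegree = 0 := by
    have := Polynomial.natDegree_le_of_dvd h1 (by simpa using h0)
    rw [Polynomial.natDegree_C] at this
    omega
  have h3 : MvPolynomial.finSuccEquiv K n P = 1 :=
    (Polynomial.Monic.natDegree_eq_zero hP).1 h2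
  have h4 : P = 1 := by
    apply (MvPolynomial.finSuccEquiv K n).injective
    rw [h3, map_one]
  apply hp.ne_top
  rw [h4, Ideal.span_singleton_one]

end poly

end Pool.Agent.Lib.MP_16285c_agX.DgvDgvM

namespace Pool.Agent.Lib.MP_16285c_agX

open Pool.Agent.Lib.MP_16285c_agN DgvDgvM
open Pool.Agent.Lib.MP_16285c_agS (xi InTI StmtDegV StmtLocV)
open Pool.Agent.Lib.MP_16285c_agS.DgvDgvM (Res main)

/-- A divisor of full residue degree is a totally invariant discrete valuation ring. -/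
theorem tDgv (hCtr : StmtCtr) (hEt : StmtEt) (hLoc : StmtLocV) (hDeg : StmtDegV) : StmtDgv := by
  intro n K _ P 𝔭 _ hPp hP hP𝔭 hdP hrk E _ _ _ _ _ L _ _ _ _ _ σ ρ ρb hσ hσb hfin hT
  obtain ⟨R, hR, hRG⟩ := hCtr n K P 𝔭 hP hP𝔭 hrk
  have hRup : up K n R ∈ 𝔭 := (hRG R).2 dvd_rfl
  refine ⟨⟨R, hR, hRG⟩, ?_⟩
  have hle : Ideal.span {P} ≤ 𝔭 := by
    rw [Ideal.span_singleton_le_iff_mem]
    exact hP𝔭
  let f : Pl (n + 1) K →+* E := (algebraMap (CR (Ideal.span {P})) E).comp (Ideal.Quotient.mk _)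
  let g : Pl (n + 1) K →+* L := (algebraMap (CR 𝔭) L).comp (Ideal.Quotient.mk _)
  have hf0 : ∀ G, f G = 0 ↔ G ∈ Ideal.span {P} := by
    intro G
    change algebraMap (CR (Ideal.span {P})) E (Ideal.Quotient.mk _ G) = 0 ↔ _
    rw [FaithfulSMul.algebraMap_eq_zero_iff, Ideal.Quotient.eq_zero_iff_mem]
  have hg0 : ∀ G, g G = 0 ↔ G ∈ 𝔭 := by
    intro G
    change algebraMap (CR 𝔭) L (Ideal.Quotient.mk _ G) = 0 ↔ _
    rw [FaithfulSMul.algebraMap_eq_zero_iff, Ideal.Quotient.eq_zero_iff_mem]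
  have hfg : ∀ s, f s = 0 → g s = 0 := fun s hs => (hg0 s).2 (hle ((hf0 s).1 hs))
  -- the valuation ring
  let 𝔮 : Ideal (CR (Ideal.span {P})) := 𝔭.map (Ideal.Quotient.mk (Ideal.span {P}))
  have hq : 𝔮.IsPrime := Ideal.map_isPrime_of_surjective Ideal.Quotient.mk_surjective
    (by rw [Ideal.mk_ker]; exact hle)
  have hmq : ∀ G : Pl (n + 1) K, cl (Ideal.span {P}) G ∈ 𝔮 ↔ G ∈ 𝔭 := fun G =>
    Ideal.mem_quotient_iff_mem hle
  have hstep : ∀ x ∈ 𝔮, ∃ s, s ∉ 𝔮 ∧ cl (Ideal.span {P}) (up K n R) ∣ s * x := by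
    intro x hx
    obtain ⟨G, rfl⟩ := Ideal.Quotient.mk_surjective x
    obtain ⟨s, A, B, hs, h1⟩ := hEt n K P 𝔭 R hP hP𝔭 hdP hRG G ((hmq G).1 hx)
    refine ⟨cl _ s, fun h => hs ((hmq s).1 h), cl _ A, ?_⟩
    have h2 : Ideal.Quotient.mk (Ideal.span {P}) P = 0 :=
      Ideal.Quotient.eq_zero_iff_mem.2 (Ideal.mem_span_singleton_self P)
    change cl _ s * cl _ G = cl _ (up K n R) * cl _ A
    rw [← map_mul, h1, map_add, map_mul, map_mul, h2, zero_mul, add_zero]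
  have hR0 : cl (Ideal.span {P}) (up K n R) ≠ 0 := by
    intro h0
    exact hR.ne_zero (up_mem hP hPp (Ideal.Quotient.eq_zero_iff_mem.1 h0))
  obtain ⟨O, hd, hO, hv⟩ := hLoc (CR (Ideal.span {P})) E 𝔮 (cl _ (up K n R)) ((hmq _).2 hRup) hR0
    hstep
  have hO' : ∀ x : E, x ∈ O ↔ ∃ N D : Pl (n + 1) K, g D ≠ 0 ∧ x * f D = f N := by
    intro x
    rw [hO x]
    constructor
    · rintro ⟨n, d, hd, h1⟩
      obtain ⟨N, rfl⟩ := Ideal.Quotient.mk_surjective n
      obtain ⟨D, rfl⟩ := Ideal.Quotient.mk_surjective d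
      exact ⟨N, D, fun h => hd ((hmq D).2 ((hg0 D).1 h)), h1⟩
    · rintro ⟨N, D, hD, h1⟩
      exact ⟨cl _ N, cl _ D, fun h => hD ((hg0 D).2 ((hmq D).1 h)), h1⟩
  have hv' : ∀ x : E, O.valuation x < 1 ↔
      ∃ N D : Pl (n + 1) K, g N = 0 ∧ g D ≠ 0 ∧ x * f D = f N := by
    intro x
    rw [hv x]
    constructor
    · rintro ⟨n, d, hn, hd, h1⟩
      obtain ⟨N, rfl⟩ := Ideal.Quotient.mk_surjective n
      obtain ⟨D, rfl⟩ := Ideal.Quotient.mk_surjective d
      exact ⟨N, D, (hg0 N).2 ((hmq N).1 hn), fun h => hd ((hmq D).2 ((hg0 D).1 h)), h1⟩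
    · rintro ⟨N, D, hN, hD, h1⟩
      exact ⟨cl _ N, cl _ D, (hmq N).2 ((hg0 N).1 hN), fun h => hD ((hg0 D).2 ((hmq D).1 h)), h1⟩
  have hfrac : ∀ u : L, ∃ N D : Pl (n + 1) K, g D ≠ 0 ∧ u * g D = g N := by
    intro u
    obtain ⟨n, d, hd, hu⟩ := IsFractionRing.div_surjective (A := CR 𝔭) u
    obtain ⟨N, rfl⟩ := Ideal.Quotient.mk_surjective n
    obtain ⟨D, rfl⟩ := Ideal.Quotient.mk_surjective d
    have h1 : g D ≠ 0 := by
      change algebraMap (CR 𝔭) L (Ideal.Quotient.mk _ D) ≠ 0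
      rw [Ne, FaithfulSMul.algebraMap_eq_zero_iff]
      exact nonZeroDivisors.ne_zero hd
    refine ⟨N, D, h1, ?_⟩
    rw [← hu]
    exact div_mul_cancel₀ _ h1
  have hcomp : ∀ G : Pl (n + 1) K, Res f g (ρ (f G)) (ρb (g G)) := by
    intro G
    have h1 : Rsd 𝔭 L (fr G) (g G) :=
      ⟨G, 1, fun h => (‹𝔭.IsPrime›).ne_top ((Ideal.eq_top_iff_one _).2 h), by simp, by simp [g]⟩
    have h2 : Rsd (Ideal.span {P}) E (fr G) (f G) :=
      ⟨G, 1, fun h => hPp.ne_top ((Ideal.eq_top_iff_one _).2 h), by simp, by simp [f]⟩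
    obtain ⟨N, D, hD, h3, h4⟩ := hσb _ _ h1
    obtain ⟨N', D', hD', h5, h6⟩ := hσ _ _ h2
    refine ⟨N, D, fun h => hD ((hg0 D).1 h), ?_, h4⟩
    have h7 : N * D' = N' * D := by
      have h7' : fr N * fr D' = fr N' * fr D := by
        rw [← h3, ← h5]
        ring
      apply IsFractionRing.injective (Pl (n + 1) K) (RF (n + 1) K)
      rw [map_mul, map_mul]
      exact h7'
    have h8 : f D' ≠ 0 := fun h => hD' ((hf0 D').1 h)
    apply mul_right_cancel₀ h8
    have h9 : f N * f D' = f N' * f D := by rw [← map_mul, h7, map_mul]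
    rw [h9]
    have h10 : ρ (f G) * f D' = f N' := h6
    rw [← h10]
    ring
  have hcon : ∀ c : K, ∃ s : Pl (n + 1) K, f s = algebraMap K E c := by
    intro c
    refine ⟨MvPolynomial.C c, ?_⟩
    rw [IsScalarTower.algebraMap_apply K (CR (Ideal.span {P})) E]
    rfl
  refine ⟨O, main hfg hfrac ρ ρb hcon hcomp hfin hT hDeg O hd hO' hv', ?_, ?_⟩
  · intro G
    exact (hO' _).2 ⟨G, 1, by simp, by simp [f, xi]⟩
  · intro G
    rw [hv']
    constructor
    · rintro ⟨N, D, hN, hD, h1⟩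
      have h2 : f (G * D - N) = 0 := by
        rw [map_sub, map_mul]
        exact sub_eq_zero.2 h1
      have h3 := hfg _ h2
      rw [map_sub, hN, sub_zero, map_mul] at h3
      rcases mul_eq_zero.1 h3 with h4 | h4
      · exact (hg0 G).1 h4
      · exact absurd h4 hD
    · intro hG
      exact ⟨G, 1, (hg0 G).2 hG, by simp, by simp [f, xi]⟩

end Pool.Agent.Lib.MP_16285c_agX

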