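import Pool.Agent.Lib.MP_16285c_agX.Dgv.Spec

/-!
# `Et`: the divisor is unramified over its image, in every dimension
-/

set_option autoImplicit false

namespace Pool.Agent.Lib.MP_16285c_agX

open Pool.Agent.Lib.MP_16285c_agN

namespace DgvEtM

open Polynomial in
/-- clearing denominators -/
lemma clear {B₀ : Type} [CommRing B₀] (𝔯 : Ideal B₀) [𝔯.IsPrime] (F : (FractionRing (B₀ ⧸ 𝔯))[X]) :
    ∃ (c : B₀) (F₁ : B₀[X]), c ∉ 𝔯 ∧
      F₁.map ((algebraMap (B₀ ⧸ 𝔯) (FractionRing (B₀ ⧸ 𝔯))).comp (Ideal.Quotient.mk 𝔯)) =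
        C (((algebraMap (B₀ ⧸ 𝔯) (FractionRing (B₀ ⧸ 𝔯))).comp (Ideal.Quotient.mk 𝔯)) c) * F := by
  obtain ⟨b, hbm, hb⟩ := IsLocalization.integerNormalization_spec (nonZeroDivisors (B₀ ⧸ 𝔯)) F
  obtain ⟨F₁, hF₁⟩ := Polynomial.map_surjective (Ideal.Quotient.mk 𝔯) Ideal.Quotient.mk_surjective
    (IsLocalization.integerNormalization (nonZeroDivisors (B₀ ⧸ 𝔯)) F)
  obtain ⟨c, hc⟩ := Ideal.Quotient.mk_surjective b
  refine ⟨c, F₁, fun h => ?_, ?_⟩
  · rw [← Ideal.Quotient.eq_zero_iff_mem, hc] at h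
    exact nonZeroDivisors.ne_zero hbm h
  · rw [← Polynomial.map_map, hF₁, hb, RingHom.comp_apply, hc]
    ext i
    rw [coeff_smul, coeff_C_mul, Algebra.smul_def]

open Polynomial in
lemma core {B₀ : Type} [CommRing B₀] (𝔓 : Ideal B₀[X]) [𝔓.IsPrime] (R : B₀) (hR : ∀ g, C g ∈ 𝔓 ↔ R ∣ g)
    (P : B₀[X]) (hP : P.Monic) (hP𝔓 : P ∈ 𝔓) (hd : derivative P ∉ 𝔓) (G : B₀[X]) (hG : G ∈ 𝔓) :
    ∃ S A B : B₀[X], S ∉ 𝔓 ∧ S * G = C R * A + P * B := by
  let 𝔯 : Ideal B₀ := 𝔓.comap C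
  have h𝔯 : ∀ g, g ∈ 𝔯 ↔ R ∣ g := fun g => hR g
  have hprime : 𝔯.IsPrime := Ideal.comap_isPrime C 𝔓
  let κ := FractionRing (B₀ ⧸ 𝔯)
  let L := FractionRing (B₀[X] ⧸ 𝔓)
  let φ : B₀ →+* κ := (algebraMap (B₀ ⧸ 𝔯) κ).comp (Ideal.Quotient.mk 𝔯)
  let f : B₀ ⧸ 𝔯 →+* B₀[X] ⧸ 𝔓 := Ideal.quotientMap 𝔓 C le_rfl
  have hf : Function.Injective f := Ideal.quotientMap_injective
  let g : B₀ ⧸ 𝔯 →+* L := (algebraMap (B₀[X] ⧸ 𝔓) L).comp f
  have hg : Function.Injective g := (IsFractionRing.injective (B₀[X] ⧸ 𝔓) L).comp hf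
  let ι : κ →+* L := IsFractionRing.lift hg
  let _ : Algebra κ L := ι.toAlgebra
  let ζ : L := algebraMap (B₀[X] ⧸ 𝔓) L (Ideal.Quotient.mk 𝔓 X)
  have hev : ∀ F : B₀[X], aeval ζ (F.map φ) = algebraMap (B₀[X] ⧸ 𝔓) L (Ideal.Quotient.mk 𝔓 F) := by
    intro F
    have h1 : (aeval ζ : κ[X] →ₐ[κ] L).toRingHom.comp (mapRingHom φ) =
        (algebraMap (B₀[X] ⧸ 𝔓) L).comp (Ideal.Quotient.mk 𝔓) := by
      refine Polynomial.ringHom_ext (fun a => ?_) ?_
      · simp only [RingHom.comp_apply, coe_mapRingHom, map_C, AlgHom.toRingHom_eq_coe, RingHom.coe_coe, aeval_C]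
        show ι (algebraMap (B₀ ⧸ 𝔯) κ (Ideal.Quotient.mk 𝔯 a)) = _
        rw [IsFractionRing.lift_algebraMap]
        rfl
      · simp only [RingHom.comp_apply, coe_mapRingHom, map_X, AlgHom.toRingHom_eq_coe, RingHom.coe_coe, aeval_X]
        rfl
    exact RingHom.congr_fun h1 F
  have hmem : ∀ F : B₀[X], aeval ζ (F.map φ) = 0 ↔ F ∈ 𝔓 := by
    intro F
    rw [hev, map_eq_zero_iff _ (IsFractionRing.injective (B₀[X] ⧸ 𝔓) L), Ideal.Quotient.eq_zero_iff_mem]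
  have hφ : ∀ a, φ a = 0 ↔ R ∣ a := by
    intro a
    rw [← h𝔯, ← Ideal.Quotient.eq_zero_iff_mem]
    exact map_eq_zero_iff _ (IsFractionRing.injective (B₀ ⧸ 𝔯) κ)
  have hzero : ∀ F : B₀[X], F.map φ = 0 → ∃ A, F = C R * A := by
    intro F hF
    have : C R ∣ F := by
      rw [C_dvd_iff_dvd_coeff]
      intro i
      rw [← hφ, ← coeff_map, hF, coeff_zero]
    exact this
  have hint : IsIntegral κ ζ := ⟨P.map φ, hP.map φ, by
    rw [← aeval_def]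
    exact (hmem P).2 hP𝔓⟩
  obtain ⟨S, hS⟩ := minpoly.dvd κ ζ ((hmem P).2 hP𝔓)
  obtain ⟨H, hH⟩ := minpoly.dvd κ ζ ((hmem G).2 hG)
  have hS0 : aeval ζ S ≠ 0 := by
    intro h0
    apply hd
    rw [← hmem, ← derivative_map, hS, derivative_mul, map_add, map_mul, map_mul, h0, mul_zero, minpoly.aeval,
      zero_mul, add_zero]
  obtain ⟨c₁, S₁, hc₁, hS₁⟩ := clear 𝔯 S
  obtain ⟨c₂, H₁, hc₂, hH₁⟩ := clear 𝔯 H
  have hk : (C c₂ * S₁ * G - P * (C c₁ * H₁)).map φ = 0 := by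
    rw [Polynomial.map_sub, Polynomial.map_mul, Polynomial.map_mul, Polynomial.map_mul, Polynomial.map_mul, map_C, map_C]
    change C (φ c₂) * S₁.map φ * G.map φ - P.map φ * (C (φ c₁) * H₁.map φ) = 0
    rw [show S₁.map φ = C (φ c₁) * S from hS₁, show H₁.map φ = C (φ c₂) * H from hH₁, hS, hH]
    ring
  obtain ⟨A, hA⟩ := hzero _ hk
  refine ⟨C c₂ * S₁, A, C c₁ * H₁, fun h => ?_, ?_⟩
  · rw [← hmem, Polynomial.map_mul, map_C, show S₁.map φ = C (φ c₁) * S from hS₁, map_mul, map_mul, aeval_C, aeval_C] at h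
    have hne : ∀ c, c ∉ 𝔯 → algebraMap κ L (φ c) ≠ 0 := fun c hc h0 => by
      have h1 := (map_eq_zero (algebraMap κ L)).1 h0
      exact hc ((h𝔯 c).2 ((hφ c).1 h1))
    exact mul_ne_zero (hne _ hc₂) (mul_ne_zero (hne _ hc₁) hS0) h
  · rw [← hA]
    ring

section

open MvPolynomial

variable {F : Type} [Field F] {r : ℕ}

lemma fse_C (c : F) : finSuccEquiv F r (C c) = Polynomial.C (C c) := (finSuccEquiv F r).commutes c

lemma fse_rename (p : MvPolynomial (Fin r) F) : finSuccEquiv F r (rename Fin.succ p) = Polynomial.C p := by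
  induction p using MvPolynomial.induction_on with
  | C a => rw [rename_C, fse_C]
  | add p q hp hq => rw [map_add, map_add, hp, hq, map_add]
  | mul_X p i hp => rw [map_mul, map_mul, hp, rename_X, finSuccEquiv_X_succ, map_mul]

lemma fse_pderiv_X (i : Fin (r + 1)) :
    finSuccEquiv F r (pderiv 0 (X i)) = Polynomial.derivative (finSuccEquiv F r (X i)) := by
  refine Fin.cases ?_ (fun j => ?_) i
  · rw [pderiv_X_self, map_one, finSuccEquiv_X_zero, Polynomial.derivative_X]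
  · rw [pderiv_X_of_ne (Fin.succ_ne_zero j), map_zero, finSuccEquiv_X_succ, Polynomial.derivative_C]

lemma fse_pderiv (G : MvPolynomial (Fin (r + 1)) F) :
    finSuccEquiv F r (pderiv 0 G) = Polynomial.derivative (finSuccEquiv F r G) := by
  induction G using MvPolynomial.induction_on with
  | C a => rw [pderiv_C, map_zero, fse_C, Polynomial.derivative_C]
  | add p q hp hq => simp only [map_add, hp, hq]
  | mul_X p i hp =>
    rw [Derivation.leibniz, smul_eq_mul, smul_eq_mul, map_add, map_mul, map_mul, hp, fse_pderiv_X, map_mul,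
      Polynomial.derivative_mul]
    ring

end

lemma fse_up {K : Type} [Field K] (n : ℕ) (G : Pl n K) :
    MvPolynomial.finSuccEquiv K n (up K n G) = Polynomial.C G :=
  fse_rename G

lemma pderiv_zero {K : Type} [Field K] (n : ℕ) (G : Pl (n + 1) K) :
    MvPolynomial.finSuccEquiv K n (MvPolynomial.pderiv 0 G) =
      Polynomial.derivative (MvPolynomial.finSuccEquiv K n G) :=
  fse_pderiv G

end DgvEtM

open DgvEtM in
theorem tEt : StmtEt := by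
  intro n K _ P 𝔭 _ R hP hP𝔭 hd hR G hG
  let e := MvPolynomial.finSuccEquiv K n
  let 𝔓 : Ideal (Polynomial (MvPolynomial (Fin n) K)) := 𝔭.comap (e.symm : _ →+* _)
  have hprime : 𝔓.IsPrime := Ideal.comap_isPrime _ 𝔭
  have hm : ∀ F : Pl (n + 1) K, e F ∈ 𝔓 ↔ F ∈ 𝔭 := by
    intro F
    show e.symm (e F) ∈ 𝔭 ↔ F ∈ 𝔭
    rw [AlgEquiv.symm_apply_apply]
  have hm' : ∀ F, F ∈ 𝔓 ↔ e.symm F ∈ 𝔭 := fun F => Iff.rfl
  obtain ⟨S, A, B, hS, h⟩ := core 𝔓 R (fun g => by rw [← fse_up, hm]; exact hR g) (e P) hP ((hm P).2 hP𝔭)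
    (by rw [← pderiv_zero, hm]; exact hd) (e G) ((hm G).2 hG)
  refine ⟨e.symm S, e.symm A, e.symm B, hS, ?_⟩
  apply e.injective
  rw [map_mul, map_add, map_mul, map_mul, AlgEquiv.apply_symm_apply, AlgEquiv.apply_symm_apply,
    AlgEquiv.apply_symm_apply, h]
  rw [show e (up K n R) = Polynomial.C R from fse_up n R]

end Pool.Agent.Lib.MP_16285c_agX
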