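import Pool.Agent.Lib.MP_16285c_agX.Can.All
import Pool.Agent.Lib.MP_16285c_agX.Dgv.CanX
import Pool.Agent.Lib.MP_16285c_agX.Dgv.Ctr
import Pool.Agent.Lib.MP_16285c_agX.Dgv.Dgv
import Pool.Agent.Lib.MP_16285c_agX.Dgv.Et
import Pool.Agent.Lib.MP_16285c_agS.Dgv.DegV
import Pool.Agent.Lib.MP_16285c_agS.Dgv.LocV
import Pool.Agent.Lib.MP_16285c_agN.Rk1
import Pool.Agent.Lib.MP_16285c_agN.Rk2
import Pool.Agent.Lib.MP_16285c_agN.Rk3
import Pool.Agent.Lib.MP_16285c_agN.G1

/-!
# Sections E and F in every dimension: closed forms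
-/

set_option autoImplicit false

namespace Pool.Agent.Lib.MP_16285c_agX

open Pool.Agent.Lib.MP_16285c_agN
open Pool.Agent.Lib.MP_16285c_agS (tLocV tDegV)

/-- A divisor of full residue degree is a totally invariant discrete valuation ring. -/
theorem cDgv : StmtDgv := tDgv (tCtr tRk1 tRk2 (tRk3 tRk2)) tEt tLocV tDegV

/-- The interface with the assembly. -/
theorem cCanX : StmtCanX := tCanX Cn.tCan cDgv tG1

end Pool.Agent.Lib.MP_16285c_agX
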