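import Pool.Agent.Lib.MP_16285c_agX.Defs
import Pool.Agent.Lib.MP_16285c_agN.SpecG

/-!
# Divisors on the hypersurface `P = 0` as discrete valuation rings (section E of note 4871 in every dimension)

The files `Dgv/*.lean` of `Lib/MP_16285c_agS` with `Pl 2`, `Pl 3` replaced by `Pl n`, `Pl (n + 1)` (`n ≥ 1`); the definitions `MonZ`, `up K n` of `MP_16285c_agX/Defs.lean` (not those of `agS`!).
`StmtLocV` (`tLocV`), `StmtDegV` (`tDegV`) of `agS` are general and are used as they are. File `Dgv/X.lean`, `theorem tX : StmtX` (or `theorem tX : StmtY → StmtX`), namespace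
`Pool.Agent.Lib.MP_16285c_agX`, auxiliary lemmas in the namespace `Pool.Agent.Lib.MP_16285c_agX.DgvXM`.
-/

set_option autoImplicit false

namespace Pool.Agent.Lib.MP_16285c_agX

open Pool.Agent.Lib.MP_16285c_agN
open Pool.Agent.Lib.MP_16285c_agS (xi InTI StmtDegV StmtLocV)

/-- (Ctr) The contraction to `K[x₁, …, x_n]`. ADAPT `agS/Dgv/Ctr.lean` (the first part of the conclusion; `StmtRk3` (b) for `n`). PROOF. `𝔭₀ = 𝔭.comap (up K n)` is prime; `CR 𝔭₀ → CR 𝔭` is injective and integral, so `rk 𝔭₀ = rk 𝔭`,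
`rk 𝔭₀ + 1 = n`, and `𝔭₀ = span {R}`, `R` irreducible. -/
def StmtCtr : Prop :=
  ∀ (n : ℕ) (K : Type) [Field K] (P : Pl (n + 1) K) (𝔭 : Ideal (Pl (n + 1) K)) [𝔭.IsPrime], MonZ P → P ∈ 𝔭 → rk 𝔭 + 1 = n →
    ∃ R : Pl n K, Irreducible R ∧ ∀ G : Pl n K, up K n G ∈ 𝔭 ↔ R ∣ G

/-- (Et) The divisor is unramified over its image. ADAPT `agS/Dgv/Et.lean` (same proof, `Pl 2` → `Pl n`). -/
def StmtEt : Prop :=
  ∀ (n : ℕ) (K : Type) [Field K] (P : Pl (n + 1) K) (𝔭 : Ideal (Pl (n + 1) K)) [𝔭.IsPrime] (R : Pl n K), MonZ P → P ∈ 𝔭 →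
    MvPolynomial.pderiv 0 P ∉ 𝔭 → (∀ G : Pl n K, up K n G ∈ 𝔭 ↔ R ∣ G) →
    ∀ G ∈ 𝔭, ∃ S A B : Pl (n + 1) K, S ∉ 𝔭 ∧ S * G = up K n R * A + P * B

/-- (Dgv) The divisor is a totally invariant discrete valuation ring. ADAPT `agS/Dgv/Dgv.lean` (same proof: `StmtCtr`, `StmtEt`, `StmtLocV`, `StmtDegV`). In the proof `R ≠ 0` because `R` is irreducible; the class of `up K n R` in `CR (span {P})` is not `0`
because `P` is monic in `z` and not a unit. -/
def StmtDgv : Prop :=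
  ∀ (n : ℕ) (K : Type) [Field K] (P : Pl (n + 1) K) (𝔭 : Ideal (Pl (n + 1) K)) [𝔭.IsPrime] [(Ideal.span {P}).IsPrime], MonZ P → P ∈ 𝔭 →
    MvPolynomial.pderiv 0 P ∉ 𝔭 → rk 𝔭 + 1 = n →
    ∀ (E : Type) [Field E] [Algebra (CR (Ideal.span {P})) E] [IsFractionRing (CR (Ideal.span {P})) E] [Algebra K E]
      [IsScalarTower K (CR (Ideal.span {P})) E] (L : Type) [Field L] [Algebra (CR 𝔭) L] [IsFractionRing (CR 𝔭) L]
      [Algebra K L] [IsScalarTower K (CR 𝔭) L] (σ : RF (n + 1) K →ₐ[K] RF (n + 1) K) (ρ : E →ₐ[K] E) (ρb : L →ₐ[K] L),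
      Rst σ (Ideal.span {P}) E ρ → Rst σ 𝔭 L ρb → Module.Finite ρ.fieldRange E →
      Module.finrank ρ.fieldRange E ≤ Module.finrank ρb.fieldRange L →
      (∃ R : Pl n K, Irreducible R ∧ ∀ G : Pl n K, up K n G ∈ 𝔭 ↔ R ∣ G) ∧
      ∃ O : ValuationSubring E, InTI K E ρ O ∧ (∀ G : Pl (n + 1) K, xi (Ideal.span {P}) E G ∈ O) ∧
        ∀ G : Pl (n + 1) K, O.valuation (xi (Ideal.span {P}) E G) < 1 ↔ G ∈ 𝔭

/-- Section F in every dimension (interface between the packages Can and Dgv; proved in `Can`): `d + 2` is the dimension. -/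
def StmtCan : Prop :=
  ∀ (d : ℕ) (k E : Type) [Field k] [CharZero k] [Field E] [Algebra k E] (ρ : E →ₐ[k] E) (x : Fin (d + 2) → E),
    AlgebraicIndependent k x → Module.Finite (IntermediateField.adjoin k (Set.range x)) E →
    Module.Finite ρ.fieldRange E → (∀ h : E, ρ h = h → ∃ c : k, h = algebraMap k E c) →
    ∃ Γ : MvPolynomial (Fin (d + 2)) k, Γ ≠ 0 ∧ ∀ O : ValuationSubring E, InTI k E ρ O → (∀ i, x i ∈ O) →
      (∃ R : MvPolynomial (Fin (d + 2)) k, Irreducible R ∧ ∀ G : MvPolynomial (Fin (d + 2)) k,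
        O.valuation (MvPolynomial.aeval x G) < 1 ↔ R ∣ G) →
      O.valuation (MvPolynomial.aeval x Γ) < 1

/-- (CanX) The interface with the assembly. ADAPT `agS/Dgv/CanS.lean`: `theorem tCanX (hCan : StmtCan) (hDgv : StmtDgv) (hG1 : StmtG1) : StmtCanX` in `Dgv/CanX.lean`; `StmtCanX` is in `Defs.lean`. PROOF. `obtain ⟨d, rfl⟩ : ∃ d, n = d + 2`. `x i = xi (X i.succ)`, algebraically independent over `K` (`P` monic in `z`:
no multiple of `P` but `0` is in `K[x₁, …, x_n]`), `E` is finite over `K(x)` (generated by the class of `z`, a root of `P`). `Γ` from `StmtCan`; `aeval x G = xi (up K n G)`. -/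
def StmtCanX' : Prop := StmtCanX

end Pool.Agent.Lib.MP_16285c_agX
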